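import Pool.Agent.helper26.IM.SpecA

/-!
# Project im: GLO, Łoś for `Good`
-/

set_option autoImplicit false

namespace Pool.Agent.helper26.IM

open Finset Pool.Agent.RRank Pool.Agent.helper35.MR

theorem GLO_Wt {Ω : Type} (𝓅 : Ultrafilter Ω) {K : Type} [Field K] {n m N q : ℕ}
    (t : Ω → Fin n × Fin m → Fin n × Fin m → Fin n × Fin m → K) (D : Ω → Fin n → DI m N q → K)
    (i j k : Fin n) :
    Wt (fun x y z => (UF.mk 𝓅 (fun ω => t ω x y z) : UF 𝓅 fun _ : Ω => K))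
      (fun i j => (UF.mk 𝓅 (fun ω => D ω i j) : UF 𝓅 fun _ : Ω => K)) i j k =
      UF.mk 𝓅 (fun ω => Wt (t ω) (D ω) i j k) := by
  have h : (fun ω => Wt (t ω) (D ω) i j k : ∀ _ : Ω, K) =
      ∑ e, ∑ f, ∑ g, (fun ω => D ω i (Sum.inr (Sum.inl (0, e)))) *
        (fun ω => D ω j (Sum.inr (Sum.inl (1, f)))) *
        (fun ω => D ω k (Sum.inr (Sum.inl (2, g)))) * (fun ω => t ω (i, e) (j, f) (k, g)) := by
    funext ω
    unfold Wt
    simp only [Finset.sum_apply, Pi.mul_apply]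
  rw [h]
  unfold Wt
  simp only [map_sum, map_mul]

theorem GLO (hLOS : LOS_stmt) (hNFC : NFC_stmt) : GLO_stmt := by
  intro Ω 𝓅 K _ n m N q l t D hG
  refine ⟨?_, ?_, ?_, ?_⟩
  · intro x y z
    have h1 : (fun ω => t ω x y z ^ N +
        ∑ i, (∑ s, D ω x.1 (Sum.inl (0, x.2, i, s)) * D ω y.1 (Sum.inl (1, y.2, i, s)) *
          D ω z.1 (Sum.inl (2, z.2, i, s))) * t ω x y z ^ (i : ℕ) : ∀ _ : Ω, K) =
        (fun ω => t ω x y z) ^ N +
        ∑ i : Fin N, (∑ s, (fun ω => D ω x.1 (Sum.inl (0, x.2, i, s))) *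
          (fun ω => D ω y.1 (Sum.inl (1, y.2, i, s))) *
          (fun ω => D ω z.1 (Sum.inl (2, z.2, i, s)))) * (fun ω => t ω x y z) ^ (i : ℕ) := by
      funext ω
      simp only [Finset.sum_apply, Pi.mul_apply, Pi.add_apply, Pi.pow_apply]
    have h2 : UF.mk 𝓅 (fun ω => t ω x y z ^ N +
        ∑ i, (∑ s, D ω x.1 (Sum.inl (0, x.2, i, s)) * D ω y.1 (Sum.inl (1, y.2, i, s)) *
          D ω z.1 (Sum.inl (2, z.2, i, s))) * t ω x y z ^ (i : ℕ)) = 0 := by
      rw [UF.mk_eq_zero]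
      filter_upwards [hG] with ω hω
      exact hω.eqn x y z
    rw [h1] at h2
    simp only [map_add, map_pow, map_sum, map_mul] at h2
    exact h2
  · intro i j k hijk
    rw [GLO_Wt, UF.mk_eq_zero]
    filter_upwards [hG] with ω hω
    exact hω.off i j k hijk
  · intro i
    rw [GLO_Wt, ← map_mul, ← map_one (UF.mk 𝓅), UF.mk_eq_mk]
    filter_upwards [hG] with ω hω
    exact hω.diag i
  · rintro ⟨x, y, z, hF⟩
    have h1 : ∀ᶠ ω in (𝓅 : Filter Ω), NF (fun i j k => t ω (x i) (y j) (z k)) := by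
      filter_upwards [hG] with ω hω
      rw [hNFC]
      intro h
      exact hω.nf ⟨x, y, z, h⟩
    have h2 := hLOS Ω 𝓅 (fun _ => K) (Fin l) (fun ω i j k => t ω (x i) (y j) (z k)) h1
    exact (hNFC _ _ _).1 h2 hF

end Pool.Agent.helper26.IM
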