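import Pool.Agent.helper26.IM.SpecA

/-!
# Project im: UAC, ultraproducts of algebraically closed fields
-/

set_option autoImplicit false

namespace Pool.Agent.helper26.IM

open Finset Pool.Agent.RRank Pool.Agent.helper35.MR

theorem UAC : UAC_stmt := by
  intro Ω 𝓅 K _ _
  refine IsAlgClosed.of_exists_root _ fun p hp hirr => ?_
  have hdeg : p.natDegree ≠ 0 := hirr.natDegree_pos.ne'
  have hc : ∀ i : Fin p.natDegree, ∃ a : ∀ ω, K ω, UF.mk 𝓅 a = p.coeff i :=
    fun i => UF.mk_surjective 𝓅 _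
  choose a ha using hc
  have hroot : ∀ ω, ∃ r : K ω, r ^ p.natDegree + ∑ i : Fin p.natDegree, a i ω * r ^ (i : ℕ) = 0 := by
    intro ω
    have h1 : Polynomial.degree (∑ i : Fin p.natDegree, Polynomial.C (a i ω) * Polynomial.X ^ (i : ℕ)) <
        (p.natDegree : WithBot ℕ) := Polynomial.degree_sum_fin_lt _
    have h2 : Polynomial.degree (Polynomial.X ^ p.natDegree +
        ∑ i : Fin p.natDegree, Polynomial.C (a i ω) * Polynomial.X ^ (i : ℕ)) = (p.natDegree : WithBot ℕ) := by
      rw [Polynomial.degree_add_eq_left_of_degree_lt (by rw [Polynomial.degree_X_pow]; exact h1),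
        Polynomial.degree_X_pow]
    obtain ⟨r, hr⟩ := IsAlgClosed.exists_root
      (Polynomial.X ^ p.natDegree +
        ∑ i : Fin p.natDegree, Polynomial.C (a i ω) * Polynomial.X ^ (i : ℕ)) (by
        rw [h2]
        exact_mod_cast hdeg)
    refine ⟨r, ?_⟩
    rw [Polynomial.IsRoot.def] at hr
    simpa [Polynomial.eval_finsetSum] using hr
  choose r hr using hroot
  refine ⟨UF.mk 𝓅 r, ?_⟩
  rw [Polynomial.eval_eq_sum_range, Finset.sum_range_succ, hp.coeff_natDegree, one_mul,
    Finset.sum_range]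
  have h1 : ∀ i : Fin p.natDegree, p.coeff (i : ℕ) * UF.mk 𝓅 r ^ (i : ℕ) =
      UF.mk 𝓅 (a i * r ^ (i : ℕ)) := by
    intro i
    rw [map_mul, map_pow, ha]
  rw [Finset.sum_congr rfl fun i _ => h1 i, ← map_sum, ← map_pow, ← map_add, UF.mk_eq_zero]
  refine Filter.Eventually.of_forall fun ω => ?_
  rw [Pi.add_apply, Finset.sum_apply, Pi.pow_apply, add_comm]
  exact hr ω

end Pool.Agent.helper26.IM
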